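import Pool.Agent.Q203.DP.Main

set_option autoImplicit false

/-!
# MP_bbe6b0_lc: the finite down-posets are not first-order definable

For every first-order sentence `φ` in the language `{≤}` there is a finite poset that satisfies `φ`
exactly if it is not a down-poset. Proof: in a poset in which `up b j` covers three consecutive
atoms `j, j + 1, j + 2` of the track `b`, a down-function which fixes `up b 0` fixes the whole
track. Let a further element `top` cover `up false 0` and the last atom of the track `false`
(not a down-poset), or the last atom of the track `true` (a down-poset). Exchanging the tails of
the two tracks beyond a point far from the elements chosen so far is a winning strategy in the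
Ehrenfeucht-Fraisse game.
-/

namespace Pool.Agent.Results.MP_bbe6b0_lc.NoSentence

open FirstOrder FirstOrder.Language Pool.Agent.Q203.DP

/-- **Negative answer to Q1.** For every first-order sentence `φ` in the language `{≤}` there is a
finite poset which satisfies `φ` if and only if it is not a down-poset. -/
theorem result : ∀ φ : Language.order.Sentence,
    ∃ (C : Type) (_ : PartialOrder C) (_ : Finite C), Sat C φ ↔ ¬ IsDownPoset C := by
  intro φ
  set N := 2 * 3 ^ (qr φ + 1) with hN
  have hpos : 1 ≤ 3 ^ (qr φ + 1) := Nat.one_le_pow _ _ (by norm_num)
  have hiff : Sat (P true N) φ ↔ Sat (P false N) φ := equiv_of_large φ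
  by_cases h : Sat (P true N) φ
  · refine ⟨P false N, inferInstance, inferInstance, ?_⟩
    exact iff_of_true (hiff.1 h) (bad N (by omega))
  · refine ⟨P true N, inferInstance, inferInstance, ?_⟩
    exact iff_of_false h (not_not.2 (good N))

end Pool.Agent.Results.MP_bbe6b0_lc.NoSentence
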